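import Pool.Agent.H4.TA.Targets

/-!
# The sequence `q` varies slowly; its partial sums tend to infinity
-/

set_option autoImplicit false

open Finset Pool.Agent.H43.TC Pool.Agent.H4.TA

namespace Pool.Agent.H10.TAS

theorem g_mono {p : ℕ → ℝ} (hp : ∀ j, 0 ≤ p j) {a b : ℕ} (h : a ≤ b) :
    ∑ j ∈ range (a + 1), p j ≤ ∑ j ∈ range (b + 1), p j :=
  sum_le_sum_of_subset_of_nonneg (range_subset_range.2 (by omega)) fun j _ _ => hp j

theorem pf_SL1 (hQGL : T_QGL) (hGRO : T_GRO) : T_SL1 := by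
  intro C p q h
  obtain ⟨h1, h2⟩ := hQGL C p q h
  have hC := h.pos
  have hg1 : ∀ n : ℕ, 1 ≤ ∑ j ∈ range (n + 1), p j := by
    intro n
    have := g_mono h.pn (Nat.zero_le n)
    simpa [h.p0] using this
  refine ⟨?_, ?_⟩
  · intro n
    rcases Nat.eq_zero_or_pos n with rfl | hn
    · rw [h.q0]; exact one_pos
    obtain ⟨K, hK⟩ := exists_nat_ge (2 * C + 2)
    have hK2 : 2 ≤ K := by
      have : (2 : ℝ) ≤ K := by linarith
      exact_mod_cast this
    have h3 := h2 K n hK2 hn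
    have h4 : C / ((K : ℝ) - 1) < 1 := by
      rw [div_lt_one (by linarith)]; linarith
    by_contra hcon
    have h5 : q n = 0 := le_antisymm (not_lt.1 hcon) (h.qn n)
    rw [h5, zero_mul] at h3
    linarith
  · intro M e hM he
    set e' : ℝ := min (e / 4) (1 / 4) with he'
    have he'0 : 0 < e' := lt_min (by positivity) (by norm_num)
    have he1 : e' ≤ e / 4 := min_le_left _ _
    have he2 : e' ≤ 1 / 4 := min_le_right _ _
    obtain ⟨K, hK⟩ := exists_nat_ge (C / e' + 2)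
    have hCe : 0 < C / e' := by positivity
    have hK2 : 2 ≤ K := by
      have : (2 : ℝ) ≤ K := by linarith
      exact_mod_cast this
    have hCK : C / ((K : ℝ) - 1) ≤ e' := by
      rw [div_le_iff₀ (by linarith)]
      have h3 : C / e' ≤ (K : ℝ) - 1 := by linarith
      rw [div_le_iff₀ he'0] at h3
      linarith
    obtain ⟨n₀, hn₀⟩ := hGRO C p hC h.pn h.p0 h.pb (K * M) e'
      (Nat.mul_pos (by omega) (by omega)) he'0
    refine ⟨n₀ + 1, fun n s hn hns hsM => ?_⟩
    have a1 := h1 n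
    have a2 := hn₀ n (by omega)
    have a3 := h2 K s hK2 (by omega)
    have a4 : ∑ j ∈ range (K * s + 1), p j ≤ ∑ j ∈ range (K * M * n + 1), p j := by
      refine g_mono h.pn ?_
      rw [mul_assoc]
      exact Nat.mul_le_mul_left _ hsM
    have hg := hg1 n
    set g : ℝ := ∑ j ∈ range (n + 1), p j with hgdef
    have a5 : 1 - e' ≤ q s * ((1 + e') * g) := by
      calc 1 - e' ≤ 1 - C / ((K : ℝ) - 1) := by linarith
        _ ≤ q s * ∑ j ∈ range (K * s + 1), p j := a3
        _ ≤ q s * ((1 + e') * g) := mul_le_mul_of_nonneg_left (a4.trans a2) (h.qn s)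
    have a6 : q n * (1 - e') ≤ (1 + e') * q s := by
      calc q n * (1 - e') ≤ q n * (q s * ((1 + e') * g)) :=
            mul_le_mul_of_nonneg_left a5 (h.qn n)
        _ = (q n * g) * ((1 + e') * q s) := by ring
        _ ≤ 1 * ((1 + e') * q s) :=
            mul_le_mul_of_nonneg_right a1 (mul_nonneg (by linarith) (h.qn s))
        _ = (1 + e') * q s := one_mul _
    have a7 : (1 + e') ≤ (1 + e) * (1 - e') := by nlinarith
    have a8 : q n * (1 - e') ≤ ((1 + e) * q s) * (1 - e') := by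
      calc q n * (1 - e') ≤ (1 + e') * q s := a6
        _ ≤ ((1 + e) * (1 - e')) * q s := mul_le_mul_of_nonneg_right a7 (h.qn s)
        _ = ((1 + e) * q s) * (1 - e') := by ring
    exact le_of_mul_le_mul_right a8 (by linarith)

theorem harm_le (n : ℕ) : ∑ j ∈ range n, 1 / ((j : ℝ) + 1) ≤ 2 * Real.sqrt n := by
  induction n with
  | zero => simp
  | succ n ih =>
    rw [sum_range_succ]
    have hn : (0 : ℝ) ≤ n := Nat.cast_nonneg n
    have h1 : Real.sqrt n ^ 2 = n := Real.sq_sqrt hn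
    have h2 : Real.sqrt ((n : ℝ) + 1) ^ 2 = n + 1 := Real.sq_sqrt (by linarith)
    have h3 : 1 ≤ Real.sqrt ((n : ℝ) + 1) := by
      calc (1 : ℝ) = Real.sqrt 1 := Real.sqrt_one.symm
        _ ≤ Real.sqrt ((n : ℝ) + 1) := Real.sqrt_le_sqrt (by linarith)
    have h4 := Real.sqrt_nonneg (n : ℝ)
    have h5 : Real.sqrt n ≤ Real.sqrt ((n : ℝ) + 1) := Real.sqrt_le_sqrt (by linarith)
    set a := Real.sqrt (n : ℝ)
    set b := Real.sqrt ((n : ℝ) + 1)
    have h6 : 1 / ((n : ℝ) + 1) ≤ 2 * (b - a) := by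
      rw [div_le_iff₀ (by linarith), ← h2]
      have h7 : (b - a) * (b + a) = 1 := by nlinarith
      have h8 : (b - a) * (2 * b) ≥ 1 := by nlinarith
      nlinarith
    push_cast
    linarith

theorem conv_le {p q : ℕ → ℝ} (hp : ∀ j, 0 ≤ p j) (hq : ∀ j, 0 ≤ q j) (T : ℕ) :
    ∑ t ∈ range (T + 1), ∑ j ∈ range (t + 1), p j * q (t - j) ≤
      (∑ j ∈ range (T + 1), p j) * ∑ s ∈ range (T + 1), q s := by
  rw [sum_comm' (t' := range (T + 1)) (s' := fun j => Ico j (T + 1)) (by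
    intro x y
    simp only [mem_range, mem_Ico]
    omega), sum_mul]
  refine sum_le_sum fun j _ => ?_
  rw [← mul_sum]
  refine mul_le_mul_of_nonneg_left ?_ (hp j)
  rw [sum_Ico_eq_sum_range]
  have : ∀ i ∈ range (T + 1 - j), q (j + i - j) = q i := fun i _ => by
    congr 1; omega
  rw [sum_congr rfl this]
  exact sum_le_sum_of_subset_of_nonneg (range_subset_range.2 (by omega)) fun i _ _ => hq i

theorem pf_EIN : T_EIN := by
  intro C p q h B
  have hC := h.pos
  obtain ⟨t₀, ht₀⟩ := exists_nat_ge ((2 * C * B) ^ 2)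
  refine ⟨t₀, fun t ht => ?_⟩
  have h1 : ((t : ℝ) + 1) ≤ (∑ j ∈ range (t + 1), p j) * ∑ s ∈ range (t + 1), q s := by
    refine le_trans (le_of_eq ?_) (conv_le h.pn h.qn t)
    rw [sum_congr rfl fun i _ => h.re i]
    simp
  have h2 : ∑ j ∈ range (t + 1), p j ≤ 2 * C * Real.sqrt ((t : ℝ) + 1) := by
    calc ∑ j ∈ range (t + 1), p j ≤ ∑ j ∈ range (t + 1), C * (1 / ((j : ℝ) + 1)) := by
          refine sum_le_sum fun j _ => ?_
          rw [mul_one_div]; exact h.pb j
      _ = C * ∑ j ∈ range (t + 1), 1 / ((j : ℝ) + 1) := by rw [mul_sum]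
      _ ≤ C * (2 * Real.sqrt ((t + 1 : ℕ) : ℝ)) :=
          mul_le_mul_of_nonneg_left (harm_le _) (by linarith)
      _ = 2 * C * Real.sqrt ((t : ℝ) + 1) := by push_cast; ring
  have hQ : 0 ≤ ∑ s ∈ range (t + 1), q s := sum_nonneg fun s _ => h.qn s
  set Q := ∑ s ∈ range (t + 1), q s
  have ht' : (t₀ : ℝ) ≤ t := by exact_mod_cast ht
  set b := Real.sqrt ((t : ℝ) + 1) with hb
  have hb2 : b ^ 2 = (t : ℝ) + 1 := Real.sq_sqrt (by positivity)
  have hb0 : 0 < b := Real.sqrt_pos.2 (by positivity)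
  have h3 : b ^ 2 ≤ 2 * C * b * Q := by
    rw [hb2]
    exact h1.trans (mul_le_mul_of_nonneg_right h2 hQ)
  have h4 : b ≤ 2 * C * Q := by
    have : b * b ≤ b * (2 * C * Q) := by nlinarith
    exact le_of_mul_le_mul_left this hb0
  have h5 : 2 * C * B ≤ b := by
    refine le_of_abs_le (abs_le_of_sq_le_sq ?_ hb0.le)
    rw [hb2]; linarith
  nlinarith

end Pool.Agent.H10.TAS
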